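import Pool.Agent.Lib.MP_6bc78b_nt.MS.GL.Iface
import Pool.Agent.Lib.MP_6bc78b_nt.MS.P1.PT.Gam

/-!
# MP_6bc78b_nt, project GL, row STG: Stirling for the Gamma factor
-/

set_option autoImplicit false

open Complex Filter Topology MeasureTheory

namespace Pool.Agent.Lib.MP_6bc78b_nt.MS.GL.H56

open Pool.Agent.Lib.MP_6bc78b_nt Pool.Agent.Lib.MP_6bc78b_nt.LL Pool.Agent.Lib.MP_6bc78b_nt.MS
  Pool.Agent.Lib.MP_6bc78b_nt.MS.P1 Pool.Agent.Lib.MP_6bc78b_nt.MS.QZ
  Pool.Agent.Lib.MP_6bc78b_nt.MS.GL Pool.Agent.Lib.MP_6bc78b_nt.MS.P1.PT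
  Pool.Agent.Lib.MP_6bc78b_nt.H11

/-- the derivative of `log ‖g‖` along a horizontal line. -/
lemma hasDerivAt_log_norm {g : ℂ → ℂ} {g' : ℂ} {y x : ℝ}
    (hg : HasDerivAt g g' ((x : ℂ) + y * I)) (h0 : g ((x : ℂ) + y * I) ≠ 0) :
    HasDerivAt (fun u : ℝ => Real.log ‖g ((u : ℂ) + y * I)‖)
      (g' / g ((x : ℂ) + y * I)).re x := by
  -- the function of a real variable
  have h1 : HasDerivAt (fun u : ℝ => g ((u : ℂ) + y * I)) g' x := by
    have h2 : HasDerivAt (fun u : ℝ => ((u : ℂ) + y * I)) 1 x := by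
      have := (Complex.ofRealCLM.hasDerivAt (x := x)).add_const ((y : ℂ) * I)
      simpa using this
    have h3 := HasDerivAt.comp x hg h2
    rw [mul_one] at h3
    exact h3
  have hre : HasDerivAt (fun u : ℝ => (g ((u : ℂ) + y * I)).re) g'.re x :=
    Complex.reCLM.hasFDerivAt.comp_hasDerivAt x h1
  have him : HasDerivAt (fun u : ℝ => (g ((u : ℂ) + y * I)).im) g'.im x :=
    Complex.imCLM.hasFDerivAt.comp_hasDerivAt x h1
  have hn0 : normSq (g ((x : ℂ) + y * I)) ≠ 0 := by rwa [Ne, Complex.normSq_eq_zero]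
  have hsq : HasDerivAt (fun u : ℝ => normSq (g ((u : ℂ) + y * I)))
      (2 * ((g ((x : ℂ) + y * I)).re * g'.re + (g ((x : ℂ) + y * I)).im * g'.im)) x := by
    have h3 := (hre.mul hre).add (him.mul him)
    have e : (fun u : ℝ => normSq (g ((u : ℂ) + y * I))) =
        (fun u : ℝ => (g ((u : ℂ) + y * I)).re) * (fun u : ℝ => (g ((u : ℂ) + y * I)).re) +
        (fun u : ℝ => (g ((u : ℂ) + y * I)).im) * (fun u : ℝ => (g ((u : ℂ) + y * I)).im) := by
      funext u
      simp [Complex.normSq_apply]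
    rw [e]
    refine h3.congr_deriv ?_
    ring
  have hl := (hsq.log hn0).const_mul (1 / 2 : ℝ)
  have e2 : (fun u : ℝ => Real.log ‖g ((u : ℂ) + y * I)‖) =
      fun u : ℝ => (1 / 2 : ℝ) * Real.log (normSq (g ((u : ℂ) + y * I))) := by
    funext u
    rw [Complex.normSq_eq_norm_sq, Real.log_pow]
    push_cast; ring
  rw [e2]
  refine hl.congr_deriv ?_
  rw [Complex.div_re]
  field_simp

/-- STG: the Gamma factor. -/
theorem stg : StgStatement := by
  refine ⟨100, by norm_num, fun y hy => ?_⟩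
  set g : ℂ → ℂ := fun s => s * (s - 1) * Gammaℝ s with hgdef
  have hy0 : 0 < y := by linarith
  have hre : ∀ x : ℝ, ((x : ℂ) + y * I).re = x := fun x => by simp
  have him : ∀ x : ℝ, ((x : ℂ) + y * I).im = y := fun x => by simp
  have hs0 : ∀ x : ℝ, ((x : ℂ) + y * I) ≠ 0 := by
    intro x h
    have := congrArg Complex.im h
    rw [him] at this
    simp at this
    linarith
  have hs1 : ∀ x : ℝ, ((x : ℂ) + y * I) - 1 ≠ 0 := by
    intro x h
    have := congrArg Complex.im h
    simp at this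
    linarith
  have hder : ∀ x ∈ Set.Icc (1 / 2 : ℝ) (5 / 4), HasDerivAt
      (fun u : ℝ => Real.log ‖g ((u : ℂ) + y * I)‖) (gPart ((x : ℂ) + y * I)).re x := by
    intro x hx
    have hx0 : 0 < ((x : ℂ) + y * I).re := by rw [hre]; linarith [hx.1]
    have hG := Gammaℝ_ne_zero_of_re_pos hx0
    have hGd := differentiableAt_Gammaℝ hx0
    have hd : HasDerivAt g _ ((x : ℂ) + y * I) :=
      (((hasDerivAt_id ((x : ℂ) + y * I)).mul
        ((hasDerivAt_id ((x : ℂ) + y * I)).sub_const 1)).mul hGd.hasDerivAt)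
    have h0 : g ((x : ℂ) + y * I) ≠ 0 :=
      mul_ne_zero (mul_ne_zero (hs0 x) (hs1 x)) hG
    have h1 := hasDerivAt_log_norm hd h0
    convert h1 using 2
    rw [gPart, logDeriv_apply]
    have h2 := hs0 x
    have h3 := hs1 x
    simp only [hgdef, id, Pi.mul_apply]
    field_simp
    try ring
  have hlogy : 1 ≤ Real.log y := by
    rw [Real.le_log_iff_exp_le hy0]
    exact Real.exp_one_lt_d9.le.trans (by linarith)
  have hbd : ∀ x ∈ Set.Icc (1 / 2 : ℝ) (5 / 4),
      ‖(gPart ((x : ℂ) + y * I)).re - 1 / 2 * Real.log y‖ ≤ 20 := by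
    intro x hx
    obtain ⟨s, hs⟩ : ∃ s : ℂ, s = (x : ℂ) + y * I := ⟨_, rfl⟩
    rw [← hs]
    have hsre : s.re = x := by rw [hs]; exact hre x
    have hsim : s.im = y := by rw [hs]; exact him x
    have hspos : 0 < s.re := by rw [hsre]; linarith [hx.1]
    have h2re : (s / 2).re = x / 2 := by
      have : (s / 2).re = s.re / 2 := by simp
      rw [this, hsre]
    have h2im : (s / 2).im = y / 2 := by
      have : (s / 2).im = s.im / 2 := by simp
      rw [this, hsim]
    have hd := digamma_sub_log (s := s / 2) (by rw [h2re]; linarith [hx.1])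
      (by rw [h2im, abs_of_pos (by linarith)]; linarith)
    rw [h2im, abs_of_pos (by linarith : 0 < y / 2)] at hd
    have hd2 : ‖logDeriv Gamma (s / 2) - log (s / 2)‖ ≤ 2 := by
      refine hd.trans ?_
      rw [div_le_iff₀ (by linarith)]; linarith
    have key : gPart s = 1 / s + 1 / (s - 1) - (Real.log Real.pi : ℂ) / 2 +
        (logDeriv Gamma (s / 2) - log (s / 2)) / 2 + log (s / 2) / 2 := by
      rw [gPart, logDeriv_Gammaℝ_eq hspos]
      ring
    have hsn : y ≤ ‖s‖ := by
      have := Complex.abs_im_le_norm s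
      rw [hsim, abs_of_pos hy0] at this
      exact this
    have h5 : |(1 / s).re| ≤ 1 := by
      refine (Complex.abs_re_le_norm _).trans ?_
      rw [norm_div, norm_one, div_le_one (by linarith)]
      linarith
    have h6 : |(1 / (s - 1)).re| ≤ 1 := by
      refine (Complex.abs_re_le_norm _).trans ?_
      have := Complex.abs_im_le_norm (s - 1)
      simp only [Complex.sub_im, Complex.one_im, sub_zero] at this
      rw [hsim, abs_of_pos hy0] at this
      rw [norm_div, norm_one, div_le_one (by linarith)]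
      linarith
    have h7 : |((logDeriv Gamma (s / 2) - log (s / 2)) / 2).re| ≤ 1 := by
      refine (Complex.abs_re_le_norm _).trans ?_
      rw [norm_div]
      have e : ‖(2:ℂ)‖ = 2 := by norm_num
      rw [e]
      linarith
    have h8 : |(log (s / 2) / 2).re - 1 / 2 * Real.log y| ≤ 1 := by
      have e1 : (log (s / 2) / 2).re = Real.log ‖s / 2‖ / 2 := by
        have : (log (s / 2) / 2).re = (log (s / 2)).re / 2 := by simp
        rw [this, Complex.log_re]
      have e2 : ‖s / 2‖ = ‖s‖ / 2 := by rw [norm_div]; norm_num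
      have hsn2 : ‖s‖ ≤ 2 * y := by
        have h2 := Complex.norm_le_abs_re_add_abs_im s
        rw [hsre, hsim, abs_of_pos hy0, abs_of_pos (by linarith [hx.1])] at h2
        linarith [hx.2]
      rw [e1, e2]
      have h9 : Real.log (‖s‖ / 2) ≤ Real.log y :=
        Real.log_le_log (by linarith) (by linarith)
      have h10 : Real.log (y / 2) ≤ Real.log (‖s‖ / 2) :=
        Real.log_le_log (by linarith) (by linarith)
      rw [Real.log_div (by linarith) (by norm_num)] at h10
      have h11 : Real.log 2 ≤ 1 := by linarith [Real.log_two_lt_d9]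
      rw [abs_le]
      constructor <;> linarith
    have hpi : |((Real.log Real.pi : ℂ) / 2).re| ≤ 2 := by
      have e : ((Real.log Real.pi : ℂ) / 2).re = Real.log Real.pi / 2 := by simp
      rw [e, abs_le]
      have h1 : 0 ≤ Real.log Real.pi := Real.log_nonneg (by linarith [Real.pi_gt_three])
      have h2 : Real.log Real.pi ≤ 3 := by
        have := Real.log_le_sub_one_of_pos Real.pi_pos
        linarith [Real.pi_lt_four]
      constructor <;> linarith
    rw [Real.norm_eq_abs, key]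
    simp only [Complex.add_re, Complex.sub_re]
    rw [abs_le] at h5 h6 h7 h8 hpi ⊢
    constructor <;> linarith [h5.1, h5.2, h6.1, h6.2, h7.1, h7.2, h8.1, h8.2, hpi.1, hpi.2]
  have hmv := Convex.norm_image_sub_le_of_norm_hasDerivWithin_le
    (f := fun u : ℝ => Real.log ‖g ((u : ℂ) + y * I)‖ - 1 / 2 * Real.log y * u)
    (f' := fun u : ℝ => (gPart ((u : ℂ) + y * I)).re - 1 / 2 * Real.log y)
    (s := Set.Icc (1 / 2 : ℝ) (5 / 4)) (C := 20) (x := 1 / 2) (y := 5 / 4)
    (fun x hx => by
      have h3 := ((hder x hx).sub ((hasDerivAt_id x).const_mul (1 / 2 * Real.log y)))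
      have h2 : HasDerivAt (fun u : ℝ => Real.log ‖g ((u : ℂ) + y * I)‖ - 1 / 2 * Real.log y * u)
          ((gPart ((x : ℂ) + y * I)).re - 1 / 2 * Real.log y) x := by
        rw [mul_one] at h3
        exact h3
      exact h2.hasDerivWithinAt)
    hbd (convex_Icc _ _) (by norm_num) (by norm_num)
  rw [Real.norm_eq_abs, Real.norm_eq_abs] at hmv
  have ea : (1 / 2 + (3 / 4 : ℝ) + y * I : ℂ) = ((5 / 4 : ℝ) : ℂ) + y * I := by
    push_cast; ring
  have eb : (1 / 2 + y * I : ℂ) = ((1 / 2 : ℝ) : ℂ) + y * I := by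
    push_cast; ring
  rw [ea, eb]
  simp only [hgdef] at hmv
  rw [abs_le] at hmv ⊢
  have e3 : |(5 / 4 : ℝ) - 1 / 2| = 3 / 4 := by norm_num
  rw [e3] at hmv
  constructor <;> linarith [hmv.1, hmv.2]

end Pool.Agent.Lib.MP_6bc78b_nt.MS.GL.H56
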